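import Pool.Agent.R892.MC.Red

/-!
# Matching Cut is NP-complete on `S_{2,2,2,2}`-subgraph-free graphs

MATCHING CUT is NP-complete on `S_{2,2,2,2}`-subgraph-free graphs (and on `F`-subgraph-free graphs
for every finite graph `F` that contains `S_{2,2,2,2}`). This answers Q2.

Proof. A *thick link* between two vertices `p, q` consists of three vertices of degree two adjacent
to both; `p` and `q` are on the same side of every matching cut. The reduction is from the
problem whether there is an assignment of the names, not constant, that satisfies given
constraints `x = z` or `y = z`. Each constraint has three vertices `P x`, `P y`, `P z` for its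
occurrences, and a vertex `Z` adjacent to `P x` and `P y` and joined to `P z` by a thick link;
consecutive occurrences of a name are joined by a thick link. A matching cut contains at most one of
the two edges from `Z` to `P x` and `P y`. Every vertex has at most three directions in which paths
of length two can leave, so there is no `S_{2,2,2,2}`. Not-all-equal satisfiability reduces to this
problem: with names `T`, `F`, and `v`, `¬v` for the variables take the constraints
`v = T` or `¬v = T`, `v = F` or `¬v = F`, `F = v` or `T = v`, `F = ¬v` or `T = ¬v` and
`a = ¬c` or `b = ¬c` for each clause `a, b, c`.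
-/

set_option autoImplicit false

namespace Pool.Agent.Results.MP_12d0d1_lc.MatchingCutNPComplete

open Pool.Agent.NPC Pool.Agent.NPC.R671 Pool.Agent.R892.MC SimpleGraph

/-- Matching Cut is NP-complete on `S_{2,2,2,2}`-subgraph-free graphs (first conjunct), and more
generally on `F`-subgraph-free graphs for every finite graph `F` that contains `S_{2,2,2,2}` (second
conjunct). The last conjunct says that for each language in NP there is a polynomial-time
many-one reduction which always produces an `S_{2,2,2,2}`-subgraph-free graph. -/
theorem result :
    (InNPP (MatchingCutOn S2222) ∧ NPHardP (MatchingCutOn S2222)) ∧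
    (∀ (W : Type) [Finite W] (F : SimpleGraph W), S2222 ⊑ F →
      InNPP (MatchingCutOn F) ∧ NPHardP (MatchingCutOn F)) ∧
    ∀ L : Set (List Bool), InNP L → ∃ f : List Bool → List Bool, PolyTime f ∧
      ∀ x, ∃ (n : ℕ) (G : SimpleGraph (Fin n)), f x = bits (R671.adjMatrix G) ∧
        S2222.Free G ∧ (x ∈ L ↔ ∃ A, IsMatchingCut G A) :=
  ⟨⟨NPC.R892.inNPP_mcutF _, NPC.R892.npHard_mcut IsContained.rfl⟩,
    fun _ _ F hF => ⟨NPC.R892.inNPP_mcutF F, NPC.R892.npHard_mcut hF⟩, NPC.R892.hard_mcut⟩

end Pool.Agent.Results.MP_12d0d1_lc.MatchingCutNPComplete
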